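import Pool.Agent.Run7.h986.QS.Prob

/-!
# From weak convergence to Cesàro convergence almost surely along sparse sequences
-/

set_option autoImplicit false

open Filter Topology MeasureTheory Set

noncomputable section

namespace Pool.Agent.Run7.h986.QS

theorem sparse {Ω : Type} [MeasurableSpace Ω] {P : Measure Ω} [IsProbabilityMeasure P]
    (X : ℕ → ℕ → Ω → ℝ) (Y : ℕ → Ω → ℝ) (B : ℕ → ℝ) (J0 : ℕ)
    (hXm : ∀ a j, J0 ≤ j → AEStronglyMeasurable (X a j) P)
    (hYm : ∀ a, AEStronglyMeasurable (Y a) P)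
    (hXB : ∀ a j o, |X a j o| ≤ B a) (hYB : ∀ a o, |Y a o| ≤ B a)
    (hlim : ∀ (a : ℕ) (χ : Ω → ℝ), Integrable χ P →
      Tendsto (fun j => ∫ o, χ o * X a j o ∂P) atTop (𝓝 (∫ o, χ o * Y a o ∂P))) :
    ∃ Φ : ℕ → ℕ, Monotone Φ ∧ ∀ J : ℕ → ℕ, Φ 0 ≤ J 0 → (∀ k, Φ (J k) ≤ J (k + 1)) →
      StrictMono J ∧
      ∀ᵐ o ∂P, ∀ a, Tendsto (fun n : ℕ => (∑ k ∈ Finset.range n, X a (J k) o) / n) atTop
        (𝓝 (Y a o)) := by
  have hXi : ∀ a j, J0 ≤ j → Integrable (X a j) P := fun a j hj =>
    Integrable.of_bound (hXm a j hj) (B a) (Eventually.of_forall fun o => by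
      rw [Real.norm_eq_abs]; exact hXB a j o)
  have hYi : ∀ a, Integrable (Y a) P := fun a =>
    Integrable.of_bound (hYm a) (B a) (Eventually.of_forall fun o => by
      rw [Real.norm_eq_abs]; exact hYB a o)
  have key : ∀ i, ∀ᶠ j in atTop, ∀ i' ∈ Finset.range (i + 1), ∀ a ∈ Finset.range (i + 1),
      J0 ≤ i' → |∫ o, (X a i' o - Y a o) * (X a j o - Y a o) ∂P| ≤ (1 / 2 : ℝ) ^ (i + 1) := by
    intro i
    rw [Filter.eventually_all_finset]
    intro i' _
    rw [Filter.eventually_all_finset]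
    intro a _
    by_cases h : J0 ≤ i'
    · have hχ : Integrable (fun o => X a i' o - Y a o) P := (hXi a i' h).sub (hYi a)
      have h1 := (hlim a _ hχ).sub_const (∫ o, (X a i' o - Y a o) * Y a o ∂P)
      rw [sub_self] at h1
      have hχm : AEStronglyMeasurable (fun o => X a i' o - Y a o) P := hχ.aestronglyMeasurable
      have hχb : ∀ o, ‖X a i' o - Y a o‖ ≤ B a + B a := fun o => by
        rw [Real.norm_eq_abs]
        exact (abs_sub _ _).trans (add_le_add (hXB a i' o) (hYB a o))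
      have h2 : ∀ᶠ j in atTop, |(∫ o, (X a i' o - Y a o) * X a j o ∂P) -
          ∫ o, (X a i' o - Y a o) * Y a o ∂P| < (1 / 2 : ℝ) ^ (i + 1) := by
        have h3 : (0 : ℝ) < (1 / 2 : ℝ) ^ (i + 1) := by positivity
        have h4 := (Metric.tendsto_nhds.mp h1) _ h3
        filter_upwards [h4] with j hj
        rw [Real.dist_eq, sub_zero] at hj
        exact hj
      filter_upwards [h2, eventually_ge_atTop J0] with j hj hj0 _
      have h5 : Integrable (fun o => (X a i' o - Y a o) * X a j o) P :=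
        (hXi a j hj0).bdd_mul hχm (Eventually.of_forall hχb)
      have h6 : Integrable (fun o => (X a i' o - Y a o) * Y a o) P :=
        (hYi a).bdd_mul hχm (Eventually.of_forall hχb)
      have h7 : ∫ o, (X a i' o - Y a o) * (X a j o - Y a o) ∂P =
          (∫ o, (X a i' o - Y a o) * X a j o ∂P) - ∫ o, (X a i' o - Y a o) * Y a o ∂P := by
        rw [← integral_sub h5 h6]
        refine integral_congr_ae (Eventually.of_forall fun o => ?_)
        show (X a i' o - Y a o) * (X a j o - Y a o) =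
          (X a i' o - Y a o) * X a j o - (X a i' o - Y a o) * Y a o
        ring
      rw [h7]
      exact hj.le
    · exact Eventually.of_forall fun j h' => absurd h' h
  choose N hN using fun i => eventually_atTop.mp (key i)
  refine ⟨fun i => (Finset.range (i + 1)).sup fun i => max (max (N i) (i + 1)) J0,
    fun i i' h => Finset.sup_mono (Finset.range_mono (by omega)), fun J h0' hJ' => ?_⟩
  have hle : ∀ i, max (max (N i) (i + 1)) J0 ≤
      (Finset.range (i + 1)).sup fun i => max (max (N i) (i + 1)) J0 := fun i =>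
    Finset.le_sup (f := fun i => max (max (N i) (i + 1)) J0)
      (Finset.mem_range.mpr (Nat.lt_succ_self i))
  have h0 : max (max (N 0) (0 + 1)) J0 ≤ J 0 := (hle 0).trans h0'
  have hJ : ∀ k, max (max (N (J k)) (J k + 1)) J0 ≤ J (k + 1) := fun k => (hle _).trans (hJ' k)
  have hN1 : ∀ k, N (J k) ≤ J (k + 1) := fun k =>
    (le_max_left _ _).trans ((le_max_left _ _).trans (hJ k))
  have hs : ∀ k, J k < J (k + 1) := fun k =>
    Nat.lt_of_succ_le ((le_max_right _ _).trans ((le_max_left _ _).trans (hJ k)))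
  have hmono : StrictMono J := strictMono_nat_of_lt_succ hs
  have hJ0 : ∀ k, J0 ≤ J k := by
    intro k
    cases k with
    | zero => exact (le_max_right _ _).trans h0
    | succ k => exact (le_max_right _ _).trans (hJ k)
  refine ⟨hmono, ?_⟩
  rw [ae_all_iff]
  intro a
  have hc : ∀ k l, a ≤ k → k < l →
      |∫ o, (X a (J k) o - Y a o) * (X a (J l) o - Y a o) ∂P| ≤ (1 / 2 : ℝ) ^ l := by
    intro k l hk hkl
    obtain ⟨l', rfl⟩ : ∃ l', l = l' + 1 := ⟨l - 1, by omega⟩
    have h1 : J k ≤ J l' := hmono.monotone (by omega)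
    have h2 : l' ≤ J l' := hmono.id_le l'
    have h3 := hN (J l') (J (l' + 1)) (hN1 l') (J k) (Finset.mem_range.mpr (by omega)) a
      (Finset.mem_range.mpr (by omega)) (hJ0 k)
    refine h3.trans ?_
    exact pow_le_pow_of_le_one (by norm_num) (by norm_num) (by omega)
  have h1 := cesaro_ae (P := P) (g := fun k o => X a (J k) o - Y a o) (B := B a + B a)
    (fun k => (hXm a (J k) (hJ0 k)).sub (hYm a))
    (fun k o => (abs_sub _ _).trans (add_le_add (hXB a (J k) o) (hYB a o))) a hc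
  filter_upwards [h1] with o ho
  have h2 := ho.add_const (Y a o)
  rw [zero_add] at h2
  refine h2.congr' ?_
  filter_upwards [eventually_ge_atTop 1] with n hn
  have hn0 : (n : ℝ) ≠ 0 := by
    have : (0 : ℝ) < n := by exact_mod_cast hn
    exact this.ne'
  rw [Finset.sum_sub_distrib, Finset.sum_const, Finset.card_range, nsmul_eq_mul, sub_div,
    mul_div_cancel_left₀ _ hn0]
  ring

/-- a subsequence which is sparse -/
theorem exists_sub (Φ J : ℕ → ℕ) (hJ : Tendsto J atTop atTop) :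
    ∃ θ : ℕ → ℕ, StrictMono θ ∧ Φ 0 ≤ J (θ 0) ∧ ∀ k, Φ (J (θ k)) ≤ J (θ (k + 1)) := by
  have h1 : ∀ m b : ℕ, ∃ k, m < k ∧ b ≤ J k := by
    intro m b
    obtain ⟨k, hk⟩ := ((eventually_gt_atTop m).and (hJ.eventually_ge_atTop b)).exists
    exact ⟨k, hk⟩
  choose c hc1 hc2 using h1
  let θ : ℕ → ℕ := fun k => Nat.rec (c 0 (Φ 0)) (fun _ m => c m (Φ (J m))) k
  refine ⟨θ, strictMono_nat_of_lt_succ fun k => hc1 (θ k) _, hc2 _ _, fun k => hc2 (θ k) _⟩

end Pool.Agent.Run7.h986.QS
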