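import Pool.Agent.Y264.QR.All
import Pool.Agent.Run7.h986.QS.Sparse

/-!
# Eigenfunctions of random conformal metrics along sparse sequences of eigenvalues
-/

set_option autoImplicit false

open Filter Topology MeasureTheory Set
open Pool.Agent.Y262.QE Pool.Agent.Y264.QR

noncomputable section

namespace Pool.Agent.Run7.h986.QS

section lip

variable {M : Type} [MetricSpace M] [CompactSpace M] [MeasurableSpace M] [BorelSpace M]

/-- the mass of `f` -/
def ms (A : Measure M) (v : M → ℝ) (f : C(M, ℝ)) : ℝ := ∫ x, f x * (v x) ^ 2 ∂A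

/-- the mean value of `f` -/
def mn (A : Measure M) (f : C(M, ℝ)) : ℝ := (∫ x, f x ∂A) / A.real univ

variable {A : Measure M} {v : M → ℝ}

theorem int_sq (h : ∫ x, v x * v x ∂A = 1) : Integrable (fun x => (v x) ^ 2) A := by
  by_contra hn
  have h1 : ∫ x, (v x) ^ 2 ∂A = 0 := integral_undef hn
  have h2 : ∫ x, v x * v x ∂A = ∫ x, (v x) ^ 2 ∂A :=
    integral_congr_ae (Eventually.of_forall fun x => (sq (v x)).symm)
  rw [h2, h1] at h
  exact one_ne_zero h.symm

theorem int_sq_one (h : ∫ x, v x * v x ∂A = 1) : ∫ x, (v x) ^ 2 ∂A = 1 := by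
  rw [← h]
  exact integral_congr_ae (Eventually.of_forall fun x => sq (v x))

theorem ms_int (h : ∫ x, v x * v x ∂A = 1) (f : C(M, ℝ)) :
    Integrable (fun x => f x * (v x) ^ 2) A :=
  (int_sq h).bdd_mul f.continuous.aestronglyMeasurable
    (Eventually.of_forall fun x => f.norm_coe_le_norm x)

theorem ms_lip (h : ∫ x, v x * v x ∂A = 1) (f f' : C(M, ℝ)) :
    |ms A v f - ms A v f'| ≤ ‖f - f'‖ := by
  unfold ms
  rw [← integral_sub (ms_int h f) (ms_int h f')]
  have h1 : ∀ x, ‖f x * (v x) ^ 2 - f' x * (v x) ^ 2‖ ≤ ‖f - f'‖ * (v x) ^ 2 := by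
    intro x
    rw [← sub_mul, norm_mul, Real.norm_of_nonneg (sq_nonneg (v x))]
    refine mul_le_mul_of_nonneg_right ?_ (sq_nonneg _)
    have := (f - f').norm_coe_le_norm x
    rwa [ContinuousMap.sub_apply] at this
  calc |∫ x, (f x * (v x) ^ 2 - f' x * (v x) ^ 2) ∂A|
      ≤ ∫ x, ‖f - f'‖ * (v x) ^ 2 ∂A := by
        rw [← Real.norm_eq_abs]
        exact norm_integral_le_of_norm_le ((int_sq h).const_mul _) (Eventually.of_forall h1)
    _ = ‖f - f'‖ := by rw [integral_const_mul, int_sq_one h, mul_one]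

theorem ms_bound (h : ∫ x, v x * v x ∂A = 1) (f : C(M, ℝ)) : |ms A v f| ≤ ‖f‖ := by
  have h1 := ms_lip h f 0
  have h2 : ms A v 0 = 0 := by simp [ms]
  rwa [h2, sub_zero, sub_zero] at h1

theorem real_pos [IsFiniteMeasure A] (h : ∫ x, v x * v x ∂A = 1) : 0 < A.real univ := by
  refine measureReal_nonneg.lt_of_ne fun h0 => ?_
  have h1 : A univ = 0 := (measureReal_eq_zero_iff).mp h0.symm
  have h2 : A = 0 := Measure.measure_univ_eq_zero.mp h1
  rw [h2, integral_zero_measure] at h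
  exact zero_ne_one h

theorem mn_lip [IsFiniteMeasure A] (h : ∫ x, v x * v x ∂A = 1) (f f' : C(M, ℝ)) :
    |mn A f - mn A f'| ≤ ‖f - f'‖ := by
  have hp := real_pos h
  have hi : ∀ f : C(M, ℝ), Integrable (fun x => f x) A := fun f =>
    Integrable.of_bound f.continuous.aestronglyMeasurable ‖f‖
      (Eventually.of_forall fun x => f.norm_coe_le_norm x)
  unfold mn
  rw [← sub_div, ← integral_sub (hi f) (hi f'), abs_div, abs_of_pos hp, div_le_iff₀ hp]
  have h1 : ∀ x, ‖f x - f' x‖ ≤ ‖f - f'‖ := by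
    intro x
    have := (f - f').norm_coe_le_norm x
    rwa [ContinuousMap.sub_apply] at this
  calc |∫ x, (f x - f' x) ∂A| ≤ ∫ _x, ‖f - f'‖ ∂A := by
        rw [← Real.norm_eq_abs]
        exact norm_integral_le_of_norm_le (integrable_const _) (Eventually.of_forall h1)
    _ = ‖f - f'‖ * A.real univ := by
        rw [integral_const, smul_eq_mul, mul_comm]

theorem mn_bound [IsFiniteMeasure A] (h : ∫ x, v x * v x ∂A = 1) (f : C(M, ℝ)) :
    |mn A f| ≤ ‖f‖ := by
  have h1 := mn_lip h f 0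
  have h2 : mn A (0 : C(M, ℝ)) = 0 := by simp [mn]
  rwa [h2, sub_zero, sub_zero] at h1

/-- averages for a dense set of functions and for all functions -/
theorem all_of_dense [IsFiniteMeasure A] {w : ℕ → M → ℝ} (hw : ∀ k, ∫ x, w k x * w k x ∂A = 1)
    (hd : ∀ a : ℕ, Tendsto (fun n : ℕ => (∑ k ∈ Finset.range n,
      ms A (w k) (TopologicalSpace.denseSeq C(M, ℝ) a)) / n) atTop
        (𝓝 (mn A (TopologicalSpace.denseSeq C(M, ℝ) a)))) (f : C(M, ℝ)) :
    Tendsto (fun n : ℕ => (∑ k ∈ Finset.range n, ms A (w k) f) / n) atTop (𝓝 (mn A f)) := by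
  rw [Metric.tendsto_atTop]
  intro ε hε
  obtain ⟨a, ha⟩ := (TopologicalSpace.denseRange_denseSeq C(M, ℝ)).exists_dist_lt f
    (by positivity : (0 : ℝ) < ε / 3)
  set g := TopologicalSpace.denseSeq C(M, ℝ) a with hg
  rw [dist_eq_norm] at ha
  obtain ⟨N, hN⟩ := (Metric.tendsto_atTop.mp (hd a)) (ε / 3) (by positivity)
  refine ⟨N, fun n hn => ?_⟩
  have h1 := hN n hn
  rw [Real.dist_eq] at h1 ⊢
  have h2 : |(∑ k ∈ Finset.range n, ms A (w k) f) / n - (∑ k ∈ Finset.range n, ms A (w k) g) / n| ≤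
      ‖f - g‖ := by
    rw [← sub_div, ← Finset.sum_sub_distrib, abs_div, Nat.abs_cast]
    rcases Nat.eq_zero_or_pos n with h0 | h0
    · rw [h0]
      simp
    · have hn0 : (0 : ℝ) < n := by exact_mod_cast h0
      rw [div_le_iff₀ hn0]
      calc |∑ k ∈ Finset.range n, (ms A (w k) f - ms A (w k) g)|
          ≤ ∑ k ∈ Finset.range n, |ms A (w k) f - ms A (w k) g| := Finset.abs_sum_le_sum_abs _ _
        _ ≤ ∑ k ∈ Finset.range n, ‖f - g‖ := Finset.sum_le_sum fun k _ => ms_lip (hw k) f g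
        _ = ‖f - g‖ * n := by rw [Finset.sum_const, Finset.card_range, nsmul_eq_mul, mul_comm]
  have h3 := mn_lip (hw 0) f g
  have h4 : (∑ k ∈ Finset.range n, ms A (w k) f) / n - mn A f =
      ((∑ k ∈ Finset.range n, ms A (w k) f) / n - (∑ k ∈ Finset.range n, ms A (w k) g) / n) +
      ((∑ k ∈ Finset.range n, ms A (w k) g) / n - mn A g) - (mn A f - mn A g) := by ring
  rw [h4]
  have h5 := abs_sub (((∑ k ∈ Finset.range n, ms A (w k) f) / n -
      (∑ k ∈ Finset.range n, ms A (w k) g) / n) +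
      ((∑ k ∈ Finset.range n, ms A (w k) g) / n - mn A g)) (mn A f - mn A g)
  have h6 := abs_add_le ((∑ k ∈ Finset.range n, ms A (w k) f) / n -
      (∑ k ∈ Finset.range n, ms A (w k) g) / n)
      ((∑ k ∈ Finset.range n, ms A (w k) g) / n - mn A g)
  linarith

end lip

/-- a limit of averages of a sequence which stays in a compact set lies in the closed convex hull of
the limit points of the sequence -/
theorem mem_hull {E : Type} [AddCommGroup E] [Module ℝ E] [TopologicalSpace E]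
    [IsTopologicalAddGroup E] [ContinuousSMul ℝ E] [LocallyConvexSpace ℝ E] {K : Set E}
    (hK : IsCompact K) (hKc : IsClosed K) {x : ℕ → E} (hx : ∀ k, x k ∈ K) {θ : ℕ → ℕ} (hθ : StrictMono θ)
    {m : E} (hm : Tendsto (fun n : ℕ => (n : ℝ)⁻¹ • ∑ k ∈ Finset.range n, x (θ k)) atTop (𝓝 m)) :
    m ∈ closure (convexHull ℝ {L : E | MapClusterPt L atTop x}) := by
  by_contra hmem
  obtain ⟨l, s, hs, hsm⟩ := geometric_hahn_banach_closed_point
    ((convex_convexHull ℝ {L : E | MapClusterPt L atTop x}).closure) isClosed_closure hmem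
  have h1 : Tendsto (fun n : ℕ => (n : ℝ)⁻¹ * ∑ k ∈ Finset.range n, l (x (θ k))) atTop
      (𝓝 (l m)) := by
    have h2 := (l.continuous.tendsto m).comp hm
    refine h2.congr fun n => ?_
    simp only [Function.comp_apply, map_smul, map_sum, smul_eq_mul]
  have h2 : ∃ᶠ k in atTop, s < l (x (θ k)) := by
    intro hev
    obtain ⟨N, hN⟩ := eventually_atTop.mp hev
    -- the averages are at most `s + C / n`
    set C : ℝ := ∑ k ∈ Finset.range N, |l (x (θ k)) - s| with hC
    have h3 : ∀ᶠ n : ℕ in atTop, (n : ℝ)⁻¹ * ∑ k ∈ Finset.range n, l (x (θ k)) ≤ s + C / n := by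
      filter_upwards [eventually_ge_atTop (N + 1)] with n hn
      have hn0 : (0 : ℝ) < n := by exact_mod_cast (by omega : 0 < n)
      have h4 : ∑ k ∈ Finset.range n, (l (x (θ k)) - s) ≤ C := by
        rw [← Finset.sum_range_add_sum_Ico _ (by omega : N ≤ n)]
        have h5 : ∑ k ∈ Finset.range N, (l (x (θ k)) - s) ≤ C :=
          Finset.sum_le_sum fun k _ => le_abs_self _
        have h6 : ∑ k ∈ Finset.Ico N n, (l (x (θ k)) - s) ≤ 0 := by
          refine Finset.sum_nonpos fun k hk => ?_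
          have := hN k (Finset.mem_Ico.mp hk).1
          rw [not_lt] at this
          linarith
        linarith
      rw [Finset.sum_sub_distrib, Finset.sum_const, Finset.card_range, nsmul_eq_mul] at h4
      rw [inv_mul_eq_div, div_le_iff₀ hn0, add_mul, div_mul_cancel₀ _ hn0.ne']
      linarith
    have h4 : Tendsto (fun n : ℕ => s + C / n) atTop (𝓝 (s + 0)) :=
      (tendsto_const_div_atTop_nhds_zero_nat C).const_add s
    have h5 := le_of_tendsto_of_tendsto h1 h4 h3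
    linarith
  have h3 : ∃ᶠ k in atTop, x k ∈ K ∩ {L : E | s ≤ l L} := by
    rw [Filter.frequently_atTop]
    intro a
    obtain ⟨k, hk, hsk⟩ := (Filter.frequently_atTop.mp h2) a
    exact ⟨θ k, hk.trans (hθ.id_le k), hx _, hsk.le⟩
  have h4 : IsCompact (K ∩ {L : E | s ≤ l L}) :=
    hK.inter_right (isClosed_le continuous_const l.continuous)
  obtain ⟨L, hL, hcl⟩ := h4.exists_mapClusterPt_of_frequently h3
  have h5 := hs L (subset_closure (subset_convexHull ℝ _ hcl))
  have h6 : s ≤ l L := hL.2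
  linarith

theorem main (M : Type) [MetricSpace M] [CompactSpace M] [MeasurableSpace M] [BorelSpace M]
    [Nonempty M] (μ : Measure M) (D : Data M) (hD : D.IsSurf μ)
    [MeasurableSpace C(M, ℝ)] [BorelSpace C(M, ℝ)] (P : Measure C(M, ℝ)) [IsProbabilityMeasure P]
    (S : Set C(M, ℝ)) (hS : Dense (Submodule.span ℝ S : Set C(M, ℝ)))
    (hP : ∀ h ∈ S, ∀ t : ℝ, P.map (fun φ => φ + t • h) ≪ P)
    (u : C(M, ℝ) → ℕ → M → ℝ) (lam : C(M, ℝ) → ℕ → ℝ)
    (hu : ∀ φ, EigBasis (D.conf fun x => Real.exp (φ x)) (wm μ fun x => Real.exp (φ x))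
      (u φ) (lam φ)) :
    (∃ Φ : ℕ → ℕ, Monotone Φ ∧ ∀ J : ℕ → ℕ, Φ 0 ≤ J 0 → (∀ k, Φ (J k) ≤ J (k + 1)) →
      StrictMono J ∧
      ∀ᵐ φ ∂P, ∀ f : C(M, ℝ), Tendsto (fun n : ℕ => (∑ k ∈ Finset.range n,
        ms (wm μ fun x => Real.exp (φ x)) (u φ (J k)) f) / n) atTop
          (𝓝 (mn (wm μ fun x => Real.exp (φ x)) f))) ∧
    ∀ J : ℕ → ℕ, Tendsto J atTop atTop → ∀ᵐ φ ∂P,
      mn (wm μ fun x => Real.exp (φ x)) ∈ closure (convexHull ℝ
        {L : C(M, ℝ) → ℝ | MapClusterPt L atTop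
          fun k => ms (wm μ fun x => Real.exp (φ x)) (u φ (J k))}) := by
  obtain ⟨hf, -⟩ := tFin M μ D hD
  haveI := hf
  have hfin : ∀ φ : C(M, ℝ), IsFiniteMeasure (wm μ fun x => Real.exp (φ x)) := by
    intro φ
    unfold wm
    refine isFiniteMeasure_withDensity_ofReal ?_
    have hi : Integrable (fun x => Real.exp (φ x)) μ :=
      Integrable.of_bound (Real.continuous_exp.comp φ.continuous).aestronglyMeasurable
        (Real.exp ‖φ‖) (Eventually.of_forall fun x => by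
          rw [Real.norm_of_nonneg (Real.exp_pos _).le]
          exact Real.exp_le_exp.mpr ((le_abs_self _).trans (φ.norm_coe_le_norm x)))
    exact hi.2
  have h1 : ∀ φ j, ∫ x, u φ j x * u φ j x ∂(wm μ fun x => Real.exp (φ x)) = 1 := by
    intro φ j
    have := (hu φ).orth j j
    rwa [if_pos rfl] at this
  obtain ⟨⟨J0, hJ0⟩, hT⟩ := tTop M μ D hD P S hS hP u lam hu
  have hcm := (Pool.Agent.Y689.QR.cm M μ).2.1
  have hsp : ∃ Φ : ℕ → ℕ, Monotone Φ ∧ ∀ J : ℕ → ℕ, Φ 0 ≤ J 0 →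
      (∀ k, Φ (J k) ≤ J (k + 1)) → StrictMono J ∧
      ∀ᵐ φ ∂P, ∀ f : C(M, ℝ), Tendsto (fun n : ℕ => (∑ k ∈ Finset.range n,
        ms (wm μ fun x => Real.exp (φ x)) (u φ (J k)) f) / n) atTop
          (𝓝 (mn (wm μ fun x => Real.exp (φ x)) f)) := by
    obtain ⟨Φ, hmo, hΦ⟩ := sparse (P := P)
      (fun a j φ => ms (wm μ fun x => Real.exp (φ x)) (u φ j)
        (TopologicalSpace.denseSeq C(M, ℝ) a))
      (fun a φ => mn (wm μ fun x => Real.exp (φ x)) (TopologicalSpace.denseSeq C(M, ℝ) a))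
      (fun a => ‖TopologicalSpace.denseSeq C(M, ℝ) a‖) J0
      (fun a j hj => hJ0 _ j hj)
      (fun a => by
        have h2 := (hcm (TopologicalSpace.denseSeq C(M, ℝ) a)).measurable.aestronglyMeasurable (μ := P)
        refine h2.congr (Eventually.of_forall fun φ => ?_)
        exact avg_eq μ (TopologicalSpace.denseSeq C(M, ℝ) a) φ)
      (fun a j φ => ms_bound (h1 φ j) _)
      (fun a φ => by
        haveI := hfin φ
        exact mn_bound (h1 φ 0) _)
      (fun a χ hχ => (hT _).1 χ hχ)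
    refine ⟨Φ, hmo, fun J h0 hJ => ⟨(hΦ J h0 hJ).1, ?_⟩⟩
    filter_upwards [(hΦ J h0 hJ).2] with φ hφ f
    haveI := hfin φ
    exact all_of_dense (fun k => h1 φ (J k)) hφ f
  refine ⟨hsp, fun J hJ => ?_⟩
  obtain ⟨Φ, -, hΦ⟩ := hsp
  obtain ⟨θ, hθ, h0, h2⟩ := exists_sub Φ J hJ
  filter_upwards [(hΦ (fun k => J (θ k)) h0 h2).2] with φ hφ
  haveI := hfin φ
  refine mem_hull (K := Set.pi univ fun f : C(M, ℝ) => Icc (-‖f‖) ‖f‖)
    (isCompact_univ_pi fun f => isCompact_Icc) (isClosed_set_pi fun f _ => isClosed_Icc)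
    (fun k f _ => ?_) hθ ?_
  · exact abs_le.mp (ms_bound (h1 φ (J k)) f)
  · rw [tendsto_pi_nhds]
    intro f
    refine (hφ f).congr fun n => ?_
    simp only [Pi.smul_apply, Finset.sum_apply, smul_eq_mul]
    rw [inv_mul_eq_div]

end Pool.Agent.Run7.h986.QS
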