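import Mathlib

/-!
# Cesàro averages of weakly correlated bounded functions, and sparse sequences
-/

set_option autoImplicit false

open Filter Topology MeasureTheory Set

noncomputable section

namespace Pool.Agent.Run7.h986.QS

section

variable {Ω : Type} [MeasurableSpace Ω] {P : Measure Ω} [IsProbabilityMeasure P]

/-- second moments of the sums -/
theorem second_moment {g : ℕ → Ω → ℝ} {B : ℝ} (hm : ∀ k, AEStronglyMeasurable (g k) P)
    (hB : ∀ k o, |g k o| ≤ B) (k0 : ℕ)
    (hc : ∀ k l, k0 ≤ k → k < l → |∫ o, g k o * g l o ∂P| ≤ (1 / 2 : ℝ) ^ l) (n : ℕ) :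
    ∫ o, (∑ k ∈ Finset.range n, g k o) ^ 2 ∂P ≤ n * (B ^ 2 + 2 * k0 * B ^ 2 + 2) := by
  have hB0 : 0 ≤ B := by
    have := hB 0
    have : Nonempty Ω := by
      by_contra h
      rw [not_nonempty_iff] at h
      have h1 : P = 0 := Measure.eq_zero_of_isEmpty P
      have h2 : P univ = 1 := measure_univ
      rw [h1] at h2
      simp at h2
    obtain ⟨o⟩ := this
    exact (abs_nonneg _).trans (hB 0 o)
  have hgi : ∀ k, Integrable (g k) P := fun k =>
    Integrable.of_bound (hm k) B (Eventually.of_forall fun o => by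
      rw [Real.norm_eq_abs]; exact hB k o)
  have hS : ∀ n, AEStronglyMeasurable (fun o => ∑ k ∈ Finset.range n, g k o) P := by
    intro n
    exact Finset.aestronglyMeasurable_fun_sum _ fun k _ => hm k
  have hSb : ∀ n o, |∑ k ∈ Finset.range n, g k o| ≤ n * B := by
    intro n o
    calc |∑ k ∈ Finset.range n, g k o| ≤ ∑ k ∈ Finset.range n, |g k o| :=
          Finset.abs_sum_le_sum_abs _ _
      _ ≤ ∑ k ∈ Finset.range n, B := Finset.sum_le_sum fun k _ => hB k o
      _ = n * B := by simp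
  have hprod : ∀ k l, Integrable (fun o => g k o * g l o) P := fun k l =>
    Integrable.of_bound ((hm k).mul (hm l)) (B * B) (Eventually.of_forall fun o => by
      rw [norm_mul, Real.norm_eq_abs, Real.norm_eq_abs]
      exact mul_le_mul (hB k o) (hB l o) (abs_nonneg _) hB0)
  induction n with
  | zero => simp
  | succ n ih =>
    have hS2 : Integrable (fun o => (∑ k ∈ Finset.range n, g k o) ^ 2) P :=
      Integrable.of_bound ((hS n).pow 2) ((n * B) ^ 2) (Eventually.of_forall fun o => by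
        rw [norm_pow, Real.norm_eq_abs]
        exact pow_le_pow_left₀ (abs_nonneg _) (hSb n o) 2)
    have h1 : ∀ o, (∑ k ∈ Finset.range (n + 1), g k o) ^ 2 =
        (∑ k ∈ Finset.range n, g k o) ^ 2 + (2 * ∑ k ∈ Finset.range n, g k o * g n o) +
          g n o * g n o := by
      intro o
      rw [Finset.sum_range_succ, ← Finset.sum_mul]
      ring
    have h2 : Integrable (fun o => 2 * ∑ k ∈ Finset.range n, g k o * g n o) P :=
      (integrable_finsetSum _ fun k _ => hprod k n).const_mul 2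
    have h3 : ∫ o, (∑ k ∈ Finset.range (n + 1), g k o) ^ 2 ∂P =
        ∫ o, (∑ k ∈ Finset.range n, g k o) ^ 2 ∂P +
          2 * ∑ k ∈ Finset.range n, ∫ o, g k o * g n o ∂P + ∫ o, g n o * g n o ∂P := by
      have hA : Integrable (fun o => (∑ k ∈ Finset.range n, g k o) ^ 2 +
          2 * ∑ k ∈ Finset.range n, g k o * g n o) P := hS2.add h2
      rw [integral_congr_ae (Eventually.of_forall h1), integral_add hA (hprod n n),
        integral_add hS2 h2, integral_const_mul, integral_finsetSum _ fun k _ => hprod k n]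
    have h4 : ∫ o, g n o * g n o ∂P ≤ B ^ 2 := by
      have h5 : ∫ o, g n o * g n o ∂P ≤ ∫ o, B ^ 2 ∂P := by
        refine integral_mono (hprod n n) (integrable_const _) fun o => ?_
        have := hB n o
        have h6 : |g n o| * |g n o| ≤ B * B := mul_le_mul this this (abs_nonneg _) hB0
        rw [abs_mul_abs_self] at h6
        show g n o * g n o ≤ B ^ 2
        rw [sq]
        exact h6
      simpa using h5
    have h5 : ∑ k ∈ Finset.range n, ∫ o, g k o * g n o ∂P ≤ k0 * B ^ 2 + 1 := by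
      have h6 : ∀ k ∈ Finset.range n, ∫ o, g k o * g n o ∂P ≤
          (if k < k0 then B ^ 2 else 0) + (1 / 2 : ℝ) ^ n := by
        intro k hk
        rw [Finset.mem_range] at hk
        by_cases h : k < k0
        · rw [if_pos h]
          have h7 : ∫ o, g k o * g n o ∂P ≤ ∫ o, B ^ 2 ∂P := by
            refine integral_mono (hprod k n) (integrable_const _) fun o => ?_
            have h8 : |g k o * g n o| ≤ B * B := by
              rw [abs_mul]
              exact mul_le_mul (hB k o) (hB n o) (abs_nonneg _) hB0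
            show g k o * g n o ≤ B ^ 2
            rw [sq]
            exact (le_abs_self _).trans h8
          have h8 : ∫ o, B ^ 2 ∂P = B ^ 2 := by simp
          have h9 : (0 : ℝ) ≤ (1 / 2 : ℝ) ^ n := by positivity
          linarith
        · rw [if_neg h, zero_add]
          exact (le_abs_self _).trans (hc k n (not_lt.mp h) hk)
      refine (Finset.sum_le_sum h6).trans ?_
      rw [Finset.sum_add_distrib, Finset.sum_const, Finset.card_range, nsmul_eq_mul]
      have h7 : ∑ k ∈ Finset.range n, (if k < k0 then B ^ 2 else 0) ≤ k0 * B ^ 2 := by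
        rw [← Finset.sum_filter, Finset.sum_const, nsmul_eq_mul]
        have h8 : ((Finset.range n).filter (fun k => k < k0)).card ≤ k0 := by
          calc ((Finset.range n).filter (fun k => k < k0)).card ≤ (Finset.range k0).card := by
                refine Finset.card_le_card fun k hk => ?_
                rw [Finset.mem_filter] at hk
                exact Finset.mem_range.mpr hk.2
            _ = k0 := Finset.card_range k0
        have h9 : (((Finset.range n).filter (fun k => k < k0)).card : ℝ) ≤ k0 := by exact_mod_cast h8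
        exact mul_le_mul_of_nonneg_right h9 (sq_nonneg B)
      have h8 : (n : ℝ) * (1 / 2 : ℝ) ^ n ≤ 1 := by
        have h9 : (n : ℝ) ≤ 2 ^ n := by exact_mod_cast (Nat.lt_two_pow_self (n := n)).le
        have h10 : (0 : ℝ) < 2 ^ n := by positivity
        rw [one_div, inv_pow, ← div_eq_mul_inv, div_le_one h10]
        exact h9
      linarith
    rw [h3]
    push_cast
    have h6 : (0 : ℝ) ≤ 2 * k0 * B ^ 2 := by positivity
    nlinarith [ih, h4, h5]

/-- Cesàro averages of bounded functions with summable correlations tend to zero almost surely -/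
theorem cesaro_ae {g : ℕ → Ω → ℝ} {B : ℝ} (hm : ∀ k, AEStronglyMeasurable (g k) P)
    (hB : ∀ k o, |g k o| ≤ B) (k0 : ℕ)
    (hc : ∀ k l, k0 ≤ k → k < l → |∫ o, g k o * g l o ∂P| ≤ (1 / 2 : ℝ) ^ l) :
    ∀ᵐ o ∂P, Tendsto (fun n : ℕ => (∑ k ∈ Finset.range n, g k o) / n) atTop (𝓝 0) := by
  set C : ℝ := B ^ 2 + 2 * k0 * B ^ 2 + 2 with hC
  have hC0 : 0 ≤ C := by positivity
  have hS : ∀ n, AEStronglyMeasurable (fun o => ∑ k ∈ Finset.range n, g k o) P := fun n =>
    Finset.aestronglyMeasurable_fun_sum _ fun k _ => hm k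
  have hSb : ∀ n o, |∑ k ∈ Finset.range n, g k o| ≤ n * B := by
    intro n o
    calc |∑ k ∈ Finset.range n, g k o| ≤ ∑ k ∈ Finset.range n, |g k o| :=
          Finset.abs_sum_le_sum_abs _ _
      _ ≤ ∑ k ∈ Finset.range n, B := Finset.sum_le_sum fun k _ => hB k o
      _ = n * B := by simp
  -- the squares along the perfect squares
  set Y : ℕ → Ω → ℝ := fun m o => ((∑ k ∈ Finset.range ((m + 1) ^ 2), g k o) / ((m + 1 : ℕ) : ℝ) ^ 2) ^ 2
    with hY
  have hYm : ∀ m, AEMeasurable (fun o => ENNReal.ofReal (Y m o)) P := fun m =>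
    ((((hS _).aemeasurable).div_const _).pow_const 2).ennreal_ofReal
  have hYi : ∀ m, ∫⁻ o, ENNReal.ofReal (Y m o) ∂P ≤ ENNReal.ofReal (C / ((m + 1 : ℕ) : ℝ) ^ 2) := by
    intro m
    have hpos : (0 : ℝ) < ((m + 1 : ℕ) : ℝ) := by exact_mod_cast Nat.succ_pos m
    have hint : Integrable (fun o => (∑ k ∈ Finset.range ((m + 1) ^ 2), g k o) ^ 2) P :=
      Integrable.of_bound ((hS _).pow 2) (((((m + 1) ^ 2 : ℕ) : ℝ) * B) ^ 2)
        (Eventually.of_forall fun o => by
          rw [norm_pow, Real.norm_eq_abs]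
          exact pow_le_pow_left₀ (abs_nonneg _) (hSb _ o) 2)
    have hYe : ∀ o, Y m o = (∑ k ∈ Finset.range ((m + 1) ^ 2), g k o) ^ 2 *
        ((((m + 1 : ℕ) : ℝ) ^ 2) ^ 2)⁻¹ := by
      intro o
      simp only [hY]
      rw [div_pow, div_eq_mul_inv]
    have hYint : Integrable (Y m) P := by
      have h0 : Y m = fun o => (∑ k ∈ Finset.range ((m + 1) ^ 2), g k o) ^ 2 *
        ((((m + 1 : ℕ) : ℝ) ^ 2) ^ 2)⁻¹ := funext hYe
      rw [h0]
      exact hint.mul_const _
    rw [← ofReal_integral_eq_lintegral_ofReal hYint (Eventually.of_forall fun o => sq_nonneg _)]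
    refine ENNReal.ofReal_le_ofReal ?_
    rw [integral_congr_ae (Eventually.of_forall hYe), integral_mul_const]
    have h1 := second_moment hm hB k0 hc ((m + 1) ^ 2)
    have h2 : (0 : ℝ) ≤ ((((m + 1 : ℕ) : ℝ) ^ 2) ^ 2)⁻¹ := by positivity
    refine (mul_le_mul_of_nonneg_right h1 h2).trans (le_of_eq ?_)
    push_cast
    rw [← hC]
    have h3 : ((m : ℝ) + 1) ≠ 0 := by positivity
    field_simp
  have hsum : Summable fun m : ℕ => C / ((m + 1 : ℕ) : ℝ) ^ 2 := by
    have h1 : Summable fun m : ℕ => (1 : ℝ) / ((m : ℕ) : ℝ) ^ 2 :=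
      Real.summable_one_div_nat_pow.mpr (by norm_num)
    have h2 := (summable_nat_add_iff 1).mpr h1
    have h3 := h2.mul_left C
    refine h3.congr fun m => ?_
    rw [mul_one_div]
  have htot : ∫⁻ o, ∑' m, ENNReal.ofReal (Y m o) ∂P ≠ ⊤ := by
    rw [lintegral_tsum hYm]
    refine ne_top_of_le_ne_top ?_ (ENNReal.tsum_le_tsum hYi)
    rw [← ENNReal.ofReal_tsum_of_nonneg (fun m => by positivity) hsum]
    exact ENNReal.ofReal_ne_top
  have hae := ae_lt_top' (AEMeasurable.tsum hYm) htot
  filter_upwards [hae] with o ho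
  have h1 : Tendsto (fun m => ENNReal.ofReal (Y m o)) atTop (𝓝 0) :=
    ENNReal.tendsto_atTop_zero_of_tsum_ne_top ho.ne
  have h2 : Tendsto (fun m => Y m o) atTop (𝓝 0) := by
    have h3 := (ENNReal.tendsto_toReal (ENNReal.zero_ne_top)).comp h1
    refine h3.congr fun m => ?_
    simp only [Function.comp_apply]
    exact ENNReal.toReal_ofReal (sq_nonneg _)
  have h3 : Tendsto (fun m : ℕ => |(∑ k ∈ Finset.range ((m + 1) ^ 2), g k o) / ((m + 1 : ℕ) : ℝ) ^ 2|)
      atTop (𝓝 0) := by
    have h4 := h2.sqrt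
    rw [Real.sqrt_zero] at h4
    refine h4.congr fun m => ?_
    exact Real.sqrt_sq_eq_abs _
  have h4 : Tendsto (fun m : ℕ => |(∑ k ∈ Finset.range (m ^ 2), g k o) / (m : ℝ) ^ 2|)
      atTop (𝓝 0) := (tendsto_add_atTop_iff_nat 1).mp h3
  have hsq : Tendsto Nat.sqrt atTop atTop := by
    rw [tendsto_atTop]
    intro b
    filter_upwards [eventually_ge_atTop (b * b)] with n hn
    exact Nat.le_sqrt.mpr hn
  have h5 := h4.comp hsq
  have h6 : Tendsto (fun n : ℕ => 2 * |B| / (Nat.sqrt n : ℝ)) atTop (𝓝 0) :=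
    (tendsto_const_div_atTop_nhds_zero_nat (2 * |B|)).comp hsq
  have h7 := h5.add h6
  rw [add_zero] at h7
  refine squeeze_zero_norm' ?_ h7
  filter_upwards [eventually_ge_atTop 1] with n hn
  simp only [Function.comp_apply]
  set m := Nat.sqrt n with hmd
  have hm1 : 1 ≤ m := Nat.le_sqrt.mpr (by simpa using hn)
  have hmn : m ^ 2 ≤ n := Nat.sqrt_le' n
  have hnm : n ≤ m ^ 2 + 2 * m := by
    have := Nat.sqrt_le_add n
    nlinarith [this]
  have hmpos : (0 : ℝ) < m := by exact_mod_cast hm1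
  have hnpos : (0 : ℝ) < n := by exact_mod_cast hn
  have hmn' : (m : ℝ) ^ 2 ≤ n := by exact_mod_cast hmn
  rw [Real.norm_eq_abs, abs_div, abs_of_pos hnpos]
  have h8 : |∑ k ∈ Finset.range n, g k o| ≤
      |∑ k ∈ Finset.range (m ^ 2), g k o| + 2 * m * |B| := by
    have h9 : ∑ k ∈ Finset.range n, g k o = ∑ k ∈ Finset.range (m ^ 2), g k o +
        ∑ k ∈ Finset.Ico (m ^ 2) n, g k o := by
      rw [Finset.range_eq_Ico, Finset.range_eq_Ico, Finset.sum_Ico_consecutive _ (Nat.zero_le _) hmn]
    rw [h9]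
    refine (abs_add_le _ _).trans (add_le_add le_rfl ?_)
    calc |∑ k ∈ Finset.Ico (m ^ 2) n, g k o| ≤ ∑ k ∈ Finset.Ico (m ^ 2) n, |g k o| :=
          Finset.abs_sum_le_sum_abs _ _
      _ ≤ ∑ k ∈ Finset.Ico (m ^ 2) n, |B| := Finset.sum_le_sum fun k _ => (hB k o).trans (le_abs_self _)
      _ = ((n - m ^ 2 : ℕ) : ℝ) * |B| := by
          rw [Finset.sum_const, Nat.card_Ico, nsmul_eq_mul]
      _ ≤ 2 * m * |B| := by
          refine mul_le_mul_of_nonneg_right ?_ (abs_nonneg _)
          have : n - m ^ 2 ≤ 2 * m := by omega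
          exact_mod_cast this
  calc |∑ k ∈ Finset.range n, g k o| / n ≤
        (|∑ k ∈ Finset.range (m ^ 2), g k o| + 2 * m * |B|) / n := by gcongr
    _ ≤ (|∑ k ∈ Finset.range (m ^ 2), g k o| + 2 * m * |B|) / (m : ℝ) ^ 2 := by gcongr
    _ = |(∑ k ∈ Finset.range (m ^ 2), g k o) / (m : ℝ) ^ 2| + 2 * |B| / m := by
        rw [add_div, abs_div, abs_of_pos (by positivity : (0 : ℝ) < (m : ℝ) ^ 2)]
        congr 1
        field_simp

end

end Pool.Agent.Run7.h986.QS
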